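import Pool.Agent.Helper63.LG.Oc

/-!
# The step for the ideals
-/

/-
Port of AM/Zz3, AM/Zz4 (see AM/Df.lean for the conventions). `Bds k`: the bounds and the supports of the leading terms of
`T p * C u * T r` for all pieces, for the ideal of the elements with `Occ (k + 1)`.
-/

namespace Pool.Agent.Helper63.LG

open Pool.Agent.Helper35.KL Pool.Agent.Helper35.AM

section pa

variable {B : Type} {M : CoxeterMatrix B} {L : M.Group → ℤ} {H : Type} [Ring H] [Algebra LP H]

/-- The bounds for the level `k`. -/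
structure Bds (D : KLD M L H) (β : B → Bool) (la : M.Group → ℕ) (k : ℕ) : Prop where
  lam : ∀ X, Sp β X → ∀ p ∈ XR M X, ∀ u ∈ par M X, ∀ r ∈ XL M X,
    D.T p * D.C u * D.T r ∈ LL D (Occ M β la (k + 1)) ((k : ℤ) - la u)
  sup : ∀ X, Sp β X → ∀ p ∈ XR M X, ∀ u ∈ par M X, ∀ r ∈ XL M X, ∀ z,
    ld D (Occ M β la (k + 1)) ((k : ℤ) - la u) (D.T p * D.C u * D.T r) z ≠ 0 → Occ M β la k z

variable {D : KLD M L H} {β : B → Bool} {la : M.Group → ℕ} (hD : Dat D β la)
variable {k : ℕ}

/-- The leading coefficients of `T p * C g * T r`. -/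
noncomputable def tt (D : KLD M L H) (β : B → Bool) (la : M.Group → ℕ) (k : ℕ)
    (p g r : M.Group) : M.Group →₀ ℤ :=
  ld D (Occ M β la (k + 1)) ((k : ℤ) - la g) (D.T p * D.C g * D.T r)

/-- The leading coefficients of `C z`. -/
noncomputable def sg (D : KLD M L H) (β : B → Bool) (la : M.Group → ℕ) (k : ℕ)
    (z : M.Group) : M.Group →₀ ℤ :=
  ld D (Occ M β la (k + 1)) 0 (D.C z)

/-- The group generated by the leading coefficients, for pieces in `I`. -/
noncomputable def TG (D : KLD M L H) (β : B → Bool) (la : M.Group → ℕ) (k : ℕ) (I : Set B) :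
    AddSubgroup (M.Group →₀ ℤ) :=
  AddSubgroup.closure {t | ∃ X, Sp β X ∧ X ⊆ I ∧ ∃ p ∈ XR M X, ∃ g ∈ par M X, ∃ r ∈ XL M X,
    p ∈ par M I ∧ r ∈ par M I ∧ la g = k ∧ t = tt D β la k p g r}

theorem TG_mono {I J : Set B} (h : I ⊆ J) : TG D β la k I ≤ TG D β la k J := by
  refine AddSubgroup.closure_mono ?_
  rintro t ⟨X, hX, hXI, p, hp, g, hg, r, hr, hpI, hrI, hk, ht⟩
  exact ⟨X, hX, hXI.trans h, p, hp, g, hg, r, hr, par_mono h hpI, par_mono h hrI, hk, ht⟩

theorem pa_gen {X I : Set B} (hX : Sp β X) (hXI : X ⊆ I) {p g r : M.Group} (hp : p ∈ XR M X)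
    (hg : g ∈ par M X) (hr : r ∈ XL M X) (hpI : p ∈ par M I) (hrI : r ∈ par M I)
    (hk : la g = k) : tt D β la k p g r ∈ TG D β la k I :=
  AddSubgroup.subset_closure ⟨X, hX, hXI, p, hp, g, hg, r, hr, hpI, hrI, hk, rfl⟩

theorem pa_heavy {z : M.Group} (hz : Occ M β la (k + 1) z) : sg D β la k z = 0 :=
  ld_II (C_mem_II hz) 0

theorem pa_sg {z : M.Group} (hz : ¬ Occ M β la (k + 1) z) :
    sg D β la k z = Finsupp.single z 1 := ld_C hz

private theorem pa_up {z : M.Group} (hz : ¬ Occ M β la (k + 1) z) :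
    D.C z = D.up (sg D β la k z) := by
  rw [pa_sg hz]
  exact (D.up_single z).symm

/-- The product with three reduced factors. -/
theorem pa_T {p g r : M.Group} (h : len M (p * g * r) = len M p + len M g + len M r) :
    D.T p * D.T g * D.T r = D.T (p * g * r) ∧ len M (p * g) = len M p + len M g := by
  have h1 : len M (p * g) = len M p + len M g := by
    have h2 := M.toCoxeterSystem.length_mul_le (p * g) r
    have h3 := M.toCoxeterSystem.length_mul_le p g
    change len M (p * g * r) ≤ len M (p * g) + len M r at h2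
    change len M (p * g) ≤ len M p + len M g at h3
    omega
  refine ⟨?_, h1⟩
  rw [← D.T_mul p g h1, ← D.T_mul (p * g) r (by omega)]

/-- Elements of the Hecke algebra of a parabolic subgroup in the span of short elements. -/
private theorem pa_short {I : Set B} {p g r : M.Group} (hp : p ∈ par M I) (hg : g ∈ par M I)
    (hr : r ∈ par M I) (h : len M (p * g * r) = len M p + len M g + len M r) :
    D.T p * D.C g * D.T r - D.C (p * g * r) ∈ Vl D.C (len M) (len M (p * g * r)) ∧
      D.T p * D.C g * D.T r - D.C (p * g * r) ∈ HQ D I := by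
  obtain ⟨hT, hl⟩ := pa_T (D := D) h
  have e : D.T p * D.C g * D.T r - D.C (p * g * r) =
      D.T p * (D.C g - D.T g) * D.T r + (D.T (p * g * r) - D.C (p * g * r)) := by
    rw [mul_sub, sub_mul, hT]
    abel
  constructor
  · rw [e]
    refine Submodule.add_mem _ ?_ (D.T_sub_C _)
    rw [Vl_eq D.T (len M) D.C D.C_sub_T]
    rcases Nat.eq_zero_or_pos (len M g) with h0 | h0
    · have h1 := len_eq_zero.1 h0
      rw [h1, D.C_one, D.T_one, sub_self, mul_zero, zero_mul]
      exact Submodule.zero_mem _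
    · have h1 : D.C g - D.T g ∈ Vl D.T (len M) (len M g) := D.C_sub_T g
      obtain ⟨n, hn⟩ : ∃ n, len M g = n + 1 := ⟨len M g - 1, by omega⟩
      rw [hn] at h1
      have h2 := D.mul_Vl (mem_Vl D.T (len M) (w := p) (Nat.lt_succ_self _)) h1
      have h4 := D.mul_Vl h2 (mem_Vl D.T (len M) (w := r) (Nat.lt_succ_self _))
      exact Vl_mono _ _ (by omega) h4
  · refine Submodule.sub_mem _ (mul_mem_HQ D (mul_mem_HQ D (T_mem_HQ D hp) (C_mem_HQ D hg))
      (T_mem_HQ D hr)) (C_mem_HQ D ?_)
    exact (par M I).mul_mem ((par M I).mul_mem hp hg) hr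

variable (hB : Bds D β la k)

include hD in
/-- Normal form of a heavy element in a parabolic subgroup. -/
theorem Dat.nf' {I : Set B} {w : M.Group} (hw : w ∈ par M I) (h : Occ M β la k w) :
    ∃ X, Sp β X ∧ X ⊆ I ∧ ∃ p ∈ XR M X, ∃ g ∈ par M X, ∃ r ∈ XL M X, w = p * g * r ∧
      p ∈ par M I ∧ r ∈ par M I ∧ len M w = len M p + len M g + len M r ∧ k ≤ la g := by
  obtain ⟨Y, hY, p, hp, g, hg, r, hr, hw', hl, hk⟩ := hD.nf h
  have hYs : Sp β Y := by
    rcases hY with ⟨i, rfl⟩ | ⟨a, b, -, rfl⟩
    · exact Sp_blk i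
    · exact Sp_pair β a b
  subst hw'
  have h1 := (pa_T (D := D) hl).2
  obtain ⟨hpg, hrI⟩ := par_of_mul (by omega) hw
  obtain ⟨hpI, hgI⟩ := par_of_mul h1 hpg
  refine ⟨Y ∩ I, hYs.sub Set.inter_subset_left, Set.inter_subset_right, p,
    XR_mono Set.inter_subset_left hp, g, ?_, r, XL_mono Set.inter_subset_left hr, rfl, hpI, hrI,
    hl, hk⟩
  exact mem_par_inter hg hgI

include hD hB in
/-- The leading coefficients of the basis elements are in the group generated by the leading
coefficients of the products. -/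
theorem sg_mem_TG {I : Set B} {z : M.Group} (hz : Occ M β la k z) (hzI : z ∈ par M I) :
    sg D β la k z ∈ TG D β la k I := by
  classical
  obtain ⟨n, hn⟩ : ∃ n, n = len M z := ⟨_, rfl⟩
  induction n using Nat.strong_induction_on generalizing z with
  | _ n ih =>
    by_cases hz1 : Occ M β la (k + 1) z
    · rw [pa_heavy (D := D) hz1]
      exact zero_mem _
    obtain ⟨X, hX, hXI, p, hp, g, hg, r, hr, hz', hpI, hrI, hl, hk⟩ := hD.nf' hzI hz
    subst hz'
    have hgk : la g = k := by
      refine le_antisymm ?_ hk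
      by_contra hne
      exact hz1 ⟨X, hX, p, g, r, hg, by omega, rfl, hl⟩
    have h1 := hB.lam X hX p hp g hg r hr
    have h2 := hB.sup X hX p hp g hg r hr
    rw [hgk, sub_self] at h1 h2
    obtain ⟨s1, s2⟩ := pa_short (D := D) hpI (par_mono hXI hg) hrI hl
    set x := D.T p * D.C g * D.T r with hx
    have h3 : tt D β la k p g r = sg D β la k (p * g * r) +
        ld D (Occ M β la (k + 1)) 0 (x - D.C (p * g * r)) := by
      rw [tt, sg, hgk, sub_self, ← map_add, hx]
      congr 1
      abel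
    have h4 : ld D (Occ M β la (k + 1)) 0 (x - D.C (p * g * r)) ∈ TG D β la k I := by
      set t := ld D (Occ M β la (k + 1)) 0 (x - D.C (p * g * r)) with ht
      rw [← Finsupp.sum_single t, Finsupp.sum]
      refine sum_mem fun z hzt => ?_
      have hzt' := Finsupp.mem_support_iff.1 hzt
      have hzl : ¬ Occ M β la (k + 1) z := ld_supp hzt'
      have h5 : D.C.repr (x - D.C (p * g * r)) z ≠ 0 := by
        intro h0
        apply hzt'
        rw [ht, ld_apply, h0, cf_zero, ite_self]
      have h6 : len M z < len M (p * g * r) := (mem_Vl_iff D.C (len M) _ _).1 s1 z h5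
      have h7 : z ∈ par M I := by
        by_contra hne
        exact h5 ((mem_HQ_C D).1 s2 z hne)
      have h8 : z ≠ p * g * r := by
        rintro rfl
        exact lt_irrefl _ h6
      have h9 : Occ M β la k z := by
        apply h2
        have h10 : t z = ld D (Occ M β la (k + 1)) 0 x z -
            ld D (Occ M β la (k + 1)) 0 (D.C (p * g * r)) z := by
          rw [ht, map_sub, Finsupp.sub_apply]
        rw [ld_C hz1, Finsupp.single_eq_of_ne h8, sub_zero] at h10
        rw [← h10]
        exact hzt'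
      have h10 : Finsupp.single z (t z) = t z • sg D β la k z := by
        rw [pa_sg hzl, Finsupp.smul_single, smul_eq_mul, mul_one]
      rw [h10]
      exact AddSubgroup.zsmul_mem _ (ih (len M z) (by omega) h9 h7 rfl) _
    have h5 : sg D β la k (p * g * r) = tt D β la k p g r -
        ld D (Occ M β la (k + 1)) 0 (x - D.C (p * g * r)) := by
      rw [h3]
      abel
    rw [h5]
    exact sub_mem (pa_gen hX hXI hp hg hr hpI hrI hgk) h4

include hD hB in
theorem TT_LL (x y : M.Group) : D.T x * D.T y ∈ LL D (Occ M β la (k + 1)) k := by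
  have h1 := hB.lam ∅ (Sp_empty β) x (fun _ h => h.elim) 1 (par M ∅).one_mem y
    (fun _ h => h.elim)
  rwa [D.C_one, mul_one, hD.one, Nat.cast_zero, sub_zero] at h1

private theorem pa_exp (b : Module.Basis M.Group LP H) {p r x : H} (S : AddSubgroup H)
    (h : ∀ w, b.repr x w • (p * b w * r) ∈ S) : p * x * r ∈ S := by
  have e : p * x * r = ∑ w ∈ (b.repr x).support, b.repr x w • (p * b w * r) := by
    conv_lhs => rw [← b.linearCombination_repr x]
    rw [Finsupp.linearCombination_apply, Finsupp.sum, Finset.mul_sum, Finset.sum_mul]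
    refine Finset.sum_congr rfl fun w _ => ?_
    rw [mul_smul_comm, smul_mul_assoc]
  rw [e]
  exact AddSubgroup.sum_mem _ fun w _ => h w

private theorem pa_C_Lat (D : KLD M L H) (w v : M.Group) : Dle 0 (D.T.repr (D.C w) v) := by
  have h : D.C w ∈ Lat D.T 0 := by
    have e : D.C w = D.T w + (D.C w - D.T w) := by abel
    rw [e]
    exact AddSubgroup.add_mem _ (basis_mem_Lat D.T w)
      (Lat_mono D.T (by norm_num) (D.C_sub_T_neg w))
  exact h v

include hD hB in
theorem CC_LL (x y : M.Group) : D.C x * D.C y ∈ LL D (Occ M β la (k + 1)) k := by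
  have h1 : ∀ w, D.T w * D.C y * 1 ∈ LL D (Occ M β la (k + 1)) k := by
    intro w
    refine pa_exp D.T _ fun v => ?_
    rw [mul_one]
    have h2 := smul_LL (pa_C_Lat D y v) (TT_LL hD hB w v)
    rwa [zero_add] at h2
  have h3 : 1 * D.C x * D.C y ∈ LL D (Occ M β la (k + 1)) k := by
    refine pa_exp D.T _ fun w => ?_
    rw [one_mul]
    have h4 := h1 w
    rw [mul_one] at h4
    have h2 := smul_LL (pa_C_Lat D x w) h4
    rwa [zero_add] at h2
  rwa [one_mul] at h3

/-! The step of the downward induction -/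

variable (hI : Idl D (Occ M β la (k + 1)))

theorem pa_hin {X : Set B} (hX : Sp β X) : ∀ c ∈ par M X, k < la c → Occ M β la (k + 1) c :=
  fun _ hc h => Occ.of_mem hX hc h

private theorem pa_II_le {x : H} (hx : x ∈ II D (Occ M β la (k + 1))) :
    x ∈ II D (Occ M β la k) :=
  mem_II.2 fun z hz => mem_II.1 hx z fun h => hz (h.mono (Nat.le_succ k))

include hI in
theorem tt_gt {X : Set B} (hX : Sp β X) {p c r : M.Group} (hc : c ∈ par M X) (h : k < la c) :
    tt D β la k p c r = 0 :=
  ld_II (hI.II_mulR _ (hI.II_mulL _ (C_mem_II (Occ.of_mem hX hc h)))) _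

include hB hI in
private theorem pa_neg {X : Set B} (hX : Sp β X) {p : M.Group} (hp : p ∈ XR M X) {n : ℕ} {x : H}
    (hx : x ∈ NegR D X (Sk M X la k) n) :
    D.T p * x ∈ LL D (Occ M β la (k + 1)) (-1) := by
  unfold NegR at hx
  refine AddSubgroup.closure_induction
    (p := fun x _ => D.T p * x ∈ LL D (Occ M β la (k + 1)) (-1)) ?_ ?_ ?_ ?_ hx
  · rintro x ⟨a, r', hr', g, hg, ha, _, rfl⟩
    have e : D.T p * (a • (D.C g * D.T r')) = a • (D.T p * D.C g * D.T r') := by
      rw [Algebra.mul_smul_comm, mul_assoc]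
    rw [e]
    rcases Nat.lt_or_ge k (la g) with h | h
    · have h1 : D.C g ∈ II D (Occ M β la (k + 1)) := C_mem_II (Occ.of_mem hX hg.1 h)
      have h2 := hI.II_mulR (D.T r') (hI.II_mulL (D.T p) h1)
      exact II_LL ((II D (Occ M β la (k + 1))).smul_mem a h2) _
    · have h1 := hB.lam X hX p hp g hg.1 r' hr'
      have h2 : la g = k := le_antisymm h hg.2
      rw [h2, sub_self] at h1
      have h4 := smul_LL ha h1
      rwa [add_zero] at h4
  · rw [mul_zero]
    exact AddSubgroup.zero_mem _
  · intro x y _ _ hx hy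
    rw [mul_add]
    exact AddSubgroup.add_mem _ hx hy
  · intro x _ hx
    rw [mul_neg]
    exact AddSubgroup.neg_mem _ hx

include hD hB hI in
private theorem pa_sub {X : Set B} (hX : Sp β X) {p g r : M.Group} (hp : p ∈ XR M X)
    (hg : g ∈ par M X) (hr : r ∈ XL M X) (hk : la g = k) :
    D.T p * D.C (g * r) - D.T p * D.C g * D.T r ∈ LL D (Occ M β la (k + 1)) (-1) := by
  have h1 := C_sub_NegR D (clR_Sk D (hD.locS hX) k) hr (show g ∈ Sk M X la k from ⟨hg, hk.ge⟩)
  have h2 := pa_neg hB hI hX hp h1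
  rwa [mul_sub, ← mul_assoc] at h2

include hD hB hI in
/-- The elements `C (g * r)` as images of the `C g`. -/
theorem admR {X : Set B} (hX : Sp β X) {r : M.Group} (hr : r ∈ XL M X) :
    AdmL D (Occ M β la (k + 1)) X la k fun g => D.C (g * r) where
  mul := fun b hb g hg hk =>
    E_right hI (hD.locS hX) (pa_hin hX) (fun _ hw => hD.occ_inv hw) hb hr hg hk
  bar := fun g _ _ => by
    rw [D.bar_C, sub_self]
    exact Submodule.zero_mem _
  lam := fun p hp g hg hk => by
    have h0 := hB.lam X hX p hp g hg r hr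
    rw [hk, sub_self] at h0
    have h1 := AddSubgroup.add_mem _ (LL_mono (by norm_num) (pa_sub hD hB hI hX hp hg hr hk)) h0
    rwa [sub_add_cancel] at h1

include hD hB hI in
theorem ld_TC {X : Set B} (hX : Sp β X) {p g r : M.Group} (hp : p ∈ XR M X) (hg : g ∈ par M X)
    (hr : r ∈ XL M X) (hk : la g = k) :
    ld D (Occ M β la (k + 1)) 0 (D.T p * D.C (g * r)) = tt D β la k p g r := by
  have h1 : ld D (Occ M β la (k + 1)) 0 (D.T p * D.C (g * r)) =
      ld D (Occ M β la (k + 1)) 0 (D.T p * D.C g * D.T r) :=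
    ld_congr (by rw [zero_sub]; exact pa_sub hD hB hI hX hp hg hr hk)
  rw [h1, tt, hk, sub_self]

include hD hB hI in
private theorem pa_Xf {X : Set B} (hX : Sp β X) {p g r : M.Group} (hp : p ∈ XR M X)
    (hg : g ∈ par M X) (hr : r ∈ XL M X) (hk : la g = k) :
    Helper35.AM.Xf D (Occ M β la (k + 1)) (fun g => D.C (g * r)) p g = D.up (tt D β la k p g r) := by
  rw [Helper35.AM.Xf, ld_TC hD hB hI hX hp hg hr hk]

private theorem pa_upII {t : M.Group →₀ ℤ} (h : ∀ z, t z ≠ 0 → Occ M β la k z) :
    D.up t ∈ II D (Occ M β la k) := by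
  refine mem_II.2 fun z hz => ?_
  rw [D.repr_up]
  have h1 : t z = 0 := by
    by_contra hne
    exact hz (h z hne)
  rw [h1, zero_smul]

include hD hB hI in
private theorem pa_gen2 {X : Set B} (hX : Sp β X) {p g r : M.Group} (hp : p ∈ XR M X)
    (hg : g ∈ par M X) (hr : r ∈ XL M X) (hk : la g = k) (t : H) :
    t * D.up (tt D β la k p g r) ∈ II D (Occ M β la k) := by
  have h1 := (admR hD hB hI hX hr).mulX hI (hD.locS hX) (pa_hin hX) hp hg hk t
  rw [pa_Xf hD hB hI hX hp hg hr hk] at h1
  have h2 : Helper35.AM.Xi D X la k (Helper35.AM.Xf D (Occ M β la (k + 1)) (fun g => D.C (g * r)))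
      (t * D.C (p * g)) ∈ II D (Occ M β la k) := by
    rw [Helper35.AM.Xi, Module.Basis.constr_apply, Finsupp.sum]
    refine Submodule.sum_mem _ fun w _ => Submodule.smul_mem _ _ ?_
    split_ifs with hw
    · rw [pa_Xf hD hB hI hX (xr_mem X w) (xp_mem X w) hr hw]
      refine pa_upII fun z hz => hB.sup X hX _ (xr_mem X w) _ (xp_mem X w) r hr z ?_
      exact hz
    · exact Submodule.zero_mem _
  have h3 := Submodule.add_mem _ (pa_II_le h1) h2
  rwa [sub_add_cancel] at h3

include hD hB hI in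
private theorem pa_TG {I : Set B} {s : M.Group →₀ ℤ} (hs : s ∈ TG D β la k I) (t : H) :
    t * D.up s ∈ II D (Occ M β la k) := by
  unfold TG at hs
  refine AddSubgroup.closure_induction
    (p := fun s _ => t * D.up s ∈ II D (Occ M β la k)) ?_ ?_ ?_ ?_ hs
  · rintro s ⟨X, hX, -, p, hp, g, hg, r, hr, -, -, hk, rfl⟩
    exact pa_gen2 hD hB hI hX hp hg hr hk t
  · have e : D.up (0 : M.Group →₀ ℤ) = 0 := map_zero D.up
    rw [e, mul_zero]
    exact Submodule.zero_mem _
  · intro x y _ _ hx hy
    have e : D.up (x + y) = D.up x + D.up y := map_add D.up x y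
    rw [e, mul_add]
    exact Submodule.add_mem _ hx hy
  · intro x _ hx
    have e : D.up (-x) = -D.up x := map_neg D.up x
    rw [e, mul_neg]
    exact Submodule.neg_mem _ hx

theorem pa_univ (w : M.Group) : w ∈ par M (Set.univ : Set B) := by
  have h1 : par M (Set.univ : Set B) = ⊤ := by
    unfold par
    rw [Set.image_univ]
    exact M.toCoxeterSystem.subgroup_closure_range_simple
  rw [h1]
  exact Subgroup.mem_top w

include hD hB hI in
private theorem pa_left (w : M.Group) (hw : Occ M β la k w) (y : H) :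
    y * D.C w ∈ II D (Occ M β la k) := by
  by_cases h : Occ M β la (k + 1) w
  · exact pa_II_le (hI.mulL w h y)
  · rw [pa_up h]
    exact pa_TG hD hB hI (sg_mem_TG hD hB hw (pa_univ w)) y

include hD hB hI in
/-- The step of the downward induction. -/
theorem idl_step : Idl D (Occ M β la k) where
  mulL := fun w hw y => pa_left hD hB hI w hw y
  mulR := fun w hw y => by
    have h1 := pa_left hD hB hI w⁻¹ (hD.occ_inv hw) (D.fl y)
    have h2 := II_fl (fun _ hw => hD.occ_inv hw) h1
    rwa [D.fl_mul, D.fl_C, inv_inv, D.fl_fl] at h2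

end pa

end Pool.Agent.Helper63.LG
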