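import Pool.Agent.Helper35.LP.Pa

/-!
# The function `a`
-/

namespace Pool.Agent.Helper63.LG

open Pool.Agent.Helper35.KL Pool.Agent.Helper35.AM

section pb

variable {B : Type} {M : CoxeterMatrix B} {L : M.Group → ℤ} {H : Type} [Ring H] [Algebra LP H]

/-- The bounds for all levels. -/
def Key (D : KLD M L H) (β : B → Bool) (la : M.Group → ℕ) : Prop :=
  ∀ k, Idl D (Occ M β la (k + 1)) → Bds D β la k

/-- The standing assumptions for the main part. -/
structure Dt (D : KLD M L H) (β : B → Bool) (la : M.Group → ℕ) : Prop extends Dat D β la where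
  key : Key D β la
  bdO : ∃ N : ℕ, ∀ w, ¬ Occ M β la N w

variable {D : KLD M L H} {β : B → Bool} {la : M.Group → ℕ} (hD : Dt D β la)

include hD in
private theorem pb_aux (N0 : ℕ) (h0 : ∀ w, ¬ Occ M β la N0 w) :
    ∀ j N : ℕ, N + j = N0 → Idl D (Occ M β la N) := by
  intro j
  induction j with
  | zero =>
    intro N hN
    have hN' : N = N0 := by omega
    subst hN'
    exact ⟨fun w hw _ => absurd hw (h0 w), fun w hw _ => absurd hw (h0 w)⟩
  | succ j ih =>
    intro N hN
    have h1 := ih (N + 1) (by omega)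
    exact idl_step hD.toDat (hD.key N h1) h1

include hD in
/-- The heavy elements span an ideal. -/
theorem idl (N : ℕ) : Idl D (Occ M β la N) := by
  obtain ⟨N0, h0⟩ := hD.bdO
  rcases le_total N N0 with h | h
  · exact pb_aux hD N0 h0 (N0 - N) N (by omega)
  · have h1 : ∀ w, ¬ Occ M β la N w := fun w hw => h0 w (hw.mono h)
    exact ⟨fun w hw _ => absurd hw (h1 w), fun w hw _ => absurd hw (h1 w)⟩

include hD in
/-- The bounds. -/
theorem Dt.bds (k : ℕ) : Bds D β la k := hD.key k (idl hD (k + 1))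

/-- The maximal value of `la` on the factors in the pieces. -/
noncomputable def al (M : CoxeterMatrix B) (β : B → Bool) (la : M.Group → ℕ)
    (w : M.Group) : ℕ := sSup {N | Occ M β la N w}

include hD in
theorem Occ_iff {N : ℕ} {w : M.Group} : Occ M β la N w ↔ N ≤ al M β la w := by
  obtain ⟨N0, h0⟩ := hD.bdO
  have hne : {N | Occ M β la N w}.Nonempty := ⟨0, Occ.zero w⟩
  have hbd : BddAbove {N | Occ M β la N w} := by
    refine ⟨N0, fun N hN => ?_⟩
    by_contra hcon
    exact h0 w (Occ.mono hN (by omega))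
  constructor
  · intro h
    exact le_csSup hbd h
  · intro h
    have h1 : Occ M β la (al M β la w) w := Nat.sSup_mem hne hbd
    exact h1.mono h

include hD in
theorem al_inv (w : M.Group) : al M β la w⁻¹ = al M β la w := by
  refine eq_of_forall_le_iff fun N => ?_
  rw [← Occ_iff hD, ← Occ_iff hD]
  constructor
  · intro h
    have h1 := hD.occ_inv h
    rwa [inv_inv] at h1
  · intro h
    exact hD.occ_inv h

include hD in
theorem al_mem {X : Set B} (hX : Sp β X) {g : M.Group} (hg : g ∈ par M X) :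
    al M β la g = la g := by
  refine eq_of_forall_le_iff fun N => ?_
  rw [← Occ_iff hD]
  exact hD.occ_mem hX hg

include hD in
theorem al_h {x y z : M.Group} (h : D.h x y z ≠ 0) :
    al M β la x ≤ al M β la z ∧ al M β la y ≤ al M β la z := by
  constructor
  · rw [← Occ_iff hD]
    by_contra hcon
    have h1 : D.C x * D.C y ∈ II D (Occ M β la (al M β la x)) :=
      (idl hD _).mulR x ((Occ_iff hD).2 le_rfl) _
    exact h (mem_II.1 h1 z hcon)
  · rw [← Occ_iff hD]
    by_contra hcon
    have h1 : D.C x * D.C y ∈ II D (Occ M β la (al M β la y)) :=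
      (idl hD _).mulL y ((Occ_iff hD).2 le_rfl) _
    exact h (mem_II.1 h1 z hcon)

include hD in
theorem al_leLR {y w : M.Group} (h : D.leLR y w) : al M β la w ≤ al M β la y := by
  refine Relation.ReflTransGen.head_induction_on
    (motive := fun y _ => al M β la w ≤ al M β la y) h le_rfl ?_
  intro a c h1 _ ih
  refine le_trans ih ?_
  rcases h1 with ⟨b, hb1⟩ | ⟨b, hb1⟩
  · exact (al_h hD hb1).2
  · exact (al_h hD hb1).1

include hD in
theorem al_mul {x y : M.Group} (h : len M (x * y) = len M x + len M y) :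
    al M β la x ≤ al M β la (x * y) ∧ al M β la y ≤ al M β la (x * y) := by
  constructor
  · rw [← Occ_iff hD]
    exact Occ.rd_left h ((Occ_iff hD).2 le_rfl)
  · rw [← Occ_iff hD]
    exact Occ.rd_right h ((Occ_iff hD).2 le_rfl)

include hD in
theorem not_al (z : M.Group) : ¬ Occ M β la (al M β la z + 1) z := by
  rw [Occ_iff hD]
  omega

include hD in
theorem CC_al (k : ℕ) (x y : M.Group) : D.C x * D.C y ∈ LL D (Occ M β la (k + 1)) k :=
  CC_LL hD.toDat (hD.bds k) x y

include hD in
theorem h_dle_al (x y z : M.Group) : Dle (al M β la z) (D.h x y z) :=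
  mem_LL.1 (CC_al hD (al M β la z) x y) z (not_al hD z)

include hD in
/-- The degrees of the coordinates of the products `T p * C u * T r`. -/
theorem TCT_dle_al {X : Set B} (hX : Sp β X) {p r u : M.Group} (hp : p ∈ XR M X)
    (hr : r ∈ XL M X) (hu : u ∈ par M X) (z : M.Group) :
    Dle ((al M β la z : ℤ) - la u) (D.C.repr (D.T p * D.C u * D.T r) z) :=
  mem_LL.1 ((hD.bds (al M β la z)).lam X hX p hp u hu r hr) z (not_al hD z)

include hD in
theorem TT_dle_al (x y z : M.Group) : Dle (al M β la z) (D.C.repr (D.T x * D.T y) z) ∧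
    (D.C.repr (D.T x * D.T y) z).coeff (al M β la z) = (D.h x y z).coeff (al M β la z) := by
  have hI := idl hD (al M β la z + 1)
  constructor
  · exact mem_LL.1 (TT_LL hD.toDat (hD.bds (al M β la z)) x y) z (not_al hD z)
  · have hk : ∀ a b, D.C a * D.C b ∈ LL D (Occ M β la (al M β la z + 1)) (al M β la z : ℤ) :=
      fun a b => CC_al hD _ a b
    have h4 : D.T x * (D.C y - D.T y) ∈ LL D (Occ M β la (al M β la z + 1))
        (0 + (-1) + (al M β la z : ℤ)) := mul_LL hI hk (T_LL x) (C_sub_T_LL y)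
    have h5 : (D.C x - D.T x) * D.C y ∈ LL D (Occ M β la (al M β la z + 1))
        ((-1) + 0 + (al M β la z : ℤ)) := mul_LL hI hk (C_sub_T_LL x) (C_LL y)
    have h6 := mem_LL.1 h4 z (not_al hD z)
    have h7 := mem_LL.1 h5 z (not_al hD z)
    have h8 : D.C x * D.C y = D.T x * D.T y + D.T x * (D.C y - D.T y) +
        (D.C x - D.T x) * D.C y := by noncomm_ring
    have h9 : D.h x y z = D.C.repr (D.T x * D.T y) z +
        D.C.repr (D.T x * (D.C y - D.T y)) z + D.C.repr ((D.C x - D.T x) * D.C y) z := by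
      show D.C.repr (D.C x * D.C y) z = _
      rw [h8, map_add, map_add, Finsupp.add_apply, Finsupp.add_apply]
    rw [h9, cf_add, cf_add, h6 _ (by omega), h7 _ (by omega), add_zero, add_zero]

/-! The value is attained -/

/-- Multiplication by `T p` preserves the lattice. -/
theorem pb_latL {Q : Set B} {n : ℤ} {p : M.Group} (hp : p ∈ XR M Q) {x : H}
    (hx : x ∈ HQ D Q) (hx' : x ∈ Lat D.T n) : D.T p * x ∈ Lat D.T n := by
  rw [← D.T.linearCombination_repr x, Finsupp.linearCombination_apply, Finsupp.sum,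
    Finset.mul_sum]
  refine AddSubgroup.sum_mem _ fun y hy => ?_
  have hy2 : y ∈ par M Q := by
    by_contra hne
    exact (Finsupp.mem_support_iff.1 hy) ((mem_HQ D).1 hx y hne)
  rw [mul_smul_comm, ← D.T_mul p y (len_XR_mul hp hy2)]
  have := smul_Lat D.T (hx' y) (basis_mem_Lat D.T (p * y))
  rwa [add_zero] at this

theorem pb_latR {Q : Set B} {n : ℤ} {r : M.Group} (hr : r ∈ XL M Q) {x : H}
    (hx : x ∈ HQ D Q) (hx' : x ∈ Lat D.T n) : x * D.T r ∈ Lat D.T n := by
  rw [← D.T.linearCombination_repr x, Finsupp.linearCombination_apply, Finsupp.sum,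
    Finset.sum_mul]
  refine AddSubgroup.sum_mem _ fun y hy => ?_
  have hy2 : y ∈ par M Q := by
    by_contra hne
    exact (Finsupp.mem_support_iff.1 hy) ((mem_HQ D).1 hx y hne)
  rw [smul_mul_assoc, ← D.T_mul y r (len_mul_XL hy2 hr)]
  have := smul_Lat D.T (hx' y) (basis_mem_Lat D.T (y * r))
  rwa [add_zero] at this

theorem pb_subL {Q : Set B} {p x : M.Group} (hp : p ∈ XR M Q) (hx : x ∈ par M Q) :
    D.C (p * x) - D.T p * D.C x ∈ Lat D.T (-1) := by
  have e : D.C (p * x) - D.T p * D.C x =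
      (D.C (p * x) - D.T (p * x)) - D.T p * (D.C x - D.T x) := by
    rw [mul_sub, ← D.T_mul p x (len_XR_mul hp hx)]
    abel
  rw [e]
  refine AddSubgroup.sub_mem _ (D.C_sub_T_neg _) (pb_latL hp ?_ (D.C_sub_T_neg x))
  exact Submodule.sub_mem _ (C_mem_HQ D hx) (T_mem_HQ D hx)

theorem pb_subR {Q : Set B} {r y : M.Group} (hr : r ∈ XL M Q) (hy : y ∈ par M Q) :
    D.C (y * r) - D.C y * D.T r ∈ Lat D.T (-1) := by
  have e : D.C (y * r) - D.C y * D.T r =
      (D.C (y * r) - D.T (y * r)) - (D.C y - D.T y) * D.T r := by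
    rw [sub_mul, ← D.T_mul y r (len_mul_XL hy hr)]
    abel
  rw [e]
  refine AddSubgroup.sub_mem _ (D.C_sub_T_neg _) (pb_latR hr ?_ (D.C_sub_T_neg y))
  exact Submodule.sub_mem _ (C_mem_HQ D hy) (T_mem_HQ D hy)

theorem pb_C0 (x : M.Group) : D.C x ∈ Lat D.T 0 := by
  have e : D.C x = D.T x + (D.C x - D.T x) := by abel
  rw [e]
  exact AddSubgroup.add_mem _ (basis_mem_Lat D.T x)
    (Lat_mono D.T (by norm_num) (D.C_sub_T_neg x))

theorem pb_TC0 {Q : Set B} {p x : M.Group} (hp : p ∈ XR M Q) (hx : x ∈ par M Q) :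
    D.T p * D.C x ∈ Lat D.T 0 := pb_latL hp (C_mem_HQ D hx) (pb_C0 x)

theorem pb_CT0 {Q : Set B} {r x : M.Group} (hr : r ∈ XL M Q) (hx : x ∈ par M Q) :
    D.C x * D.T r ∈ Lat D.T 0 := pb_latR hr (C_mem_HQ D hx) (pb_C0 x)

include hD in
/-- The leading coefficients of the products with the elements of a piece. -/
theorem lead_CC {X : Set B} (hX : Sp β X) (k : ℕ) {p r x y : M.Group} (hp : p ∈ XR M X)
    (hr : r ∈ XL M X) (hx : x ∈ par M X) (hy : y ∈ par M X) {z : M.Group}
    (hz : ¬ Occ M β la (k + 1) z) :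
    (D.h (p * x) (y * r) z).coeff (k : ℤ) =
      ∑ c ∈ (D.C.repr (D.C x * D.C y)).support, gc D la x y c * tt D β la k p c r z := by
  classical
  have hI := idl hD (k + 1)
  have hCC := CC_al hD k
  have a1 : D.C (p * x) - D.T p * D.C x ∈ LL D (Occ M β la (k + 1)) (-1) :=
    LatT_LL (pb_subL hp hx)
  have a2 : D.C (y * r) - D.C y * D.T r ∈ LL D (Occ M β la (k + 1)) (-1) :=
    LatT_LL (pb_subR hr hy)
  have a3 : D.T p * D.C x ∈ LL D (Occ M β la (k + 1)) 0 := LatT_LL (pb_TC0 hp hx)
  have b1 := mul_LL hI hCC a1 (C_LL (D := D) (hv := Occ M β la (k + 1)) (y * r))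
  have b2 := mul_LL hI hCC a3 a2
  have b3 : D.C (p * x) * D.C (y * r) - D.T p * D.C x * (D.C y * D.T r) ∈
      LL D (Occ M β la (k + 1)) ((k : ℤ) - 1) := by
    have e : D.C (p * x) * D.C (y * r) - D.T p * D.C x * (D.C y * D.T r) =
        (D.C (p * x) - D.T p * D.C x) * D.C (y * r) +
          D.T p * D.C x * (D.C (y * r) - D.C y * D.T r) := by
      rw [sub_mul, mul_sub]
      abel
    rw [e]
    exact AddSubgroup.add_mem _ (LL_mono (by omega) b1) (LL_mono (by omega) b2)
  have b4 := ld_congr b3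
  have b5 : (D.h (p * x) (y * r) z).coeff (k : ℤ) =
      ld D (Occ M β la (k + 1)) (k : ℤ) (D.T p * D.C x * (D.C y * D.T r)) z := by
    rw [← b4, ld_apply, if_neg hz]
    rfl
  have c1 : D.T p * D.C x * (D.C y * D.T r) =
      ∑ c ∈ (D.C.repr (D.C x * D.C y)).support,
        D.C.repr (D.C x * D.C y) c • (D.T p * D.C c * D.T r) := by
    have e : D.T p * D.C x * (D.C y * D.T r) = D.T p * (D.C x * D.C y) * D.T r := by
      simp only [mul_assoc]
    rw [e]
    conv_lhs => rw [← D.C.linearCombination_repr (D.C x * D.C y)]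
    rw [Finsupp.linearCombination_apply, Finsupp.sum, Finset.mul_sum, Finset.sum_mul]
    refine Finset.sum_congr rfl fun c _ => ?_
    rw [mul_smul_comm, smul_mul_assoc]
  rw [b5, c1, map_sum, Finsupp.finsetSum_apply]
  refine Finset.sum_congr rfl fun c hc => ?_
  have hcP : c ∈ par M X := h_mem D hx hy (Finsupp.mem_support_iff.1 hc)
  have h1 := (hD.bds k).lam X hX p hp c hcP r hr
  have h3 := ld_smul (hv := Occ M β la (k + 1)) ((hD.locS hX).dle x hx y hy c hcP) h1
  have e : ((la c : ℕ) : ℤ) + ((k : ℤ) - la c) = k := by omega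
  rw [e] at h3
  have h4 := DFunLike.congr_fun h3 z
  rw [Finsupp.smul_apply, smul_eq_mul] at h4
  exact h4

include hD in
/-- The value is attained inside every parabolic subgroup. -/
theorem al_attained (I : Set B) {w : M.Group} (hw : w ∈ par M I) :
    ∃ x ∈ par M I, ∃ y ∈ par M I, (D.h x y w).coeff (al M β la w) ≠ 0 := by
  classical
  obtain ⟨k, hk⟩ : ∃ k, k = al M β la w := ⟨_, rfl⟩
  have hocc : Occ M β la k w := (Occ_iff hD).2 hk.le
  have hl : ¬ Occ M β la (k + 1) w := by
    rw [hk]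
    exact not_al hD w
  rw [← hk]
  by_contra hcon
  push Not at hcon
  -- all leading coefficients vanish at `w`
  have h1 : ∀ t ∈ TG D β la k I, t w = 0 := by
    intro t ht
    unfold TG at ht
    refine AddSubgroup.closure_induction (p := fun t _ => t w = 0) ?_ ?_ ?_ ?_ ht
    · rintro s ⟨X, hX, hXI, p, hp, g, hg, r, hr, hpI, hrI, hgk, rfl⟩
      obtain ⟨d, hd, -, hd2, -, hd4, hd5⟩ := (hD.locS hX).unitR g hg
      have h2 := lead_CC hD hX k hp hr hg hd hl
      rw [hcon _ ((par M I).mul_mem hpI (par_mono hXI hg)) _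
        ((par M I).mul_mem (par_mono hXI hd) hrI), Finset.sum_eq_single g] at h2
      · rw [hd4] at h2
        rcases hd2 with h3 | h3 <;> rw [h3] at h2
        · linarith
        · linarith
      · intro c hc hne
        have hcP : c ∈ par M X := h_mem D hg hd (Finsupp.mem_support_iff.1 hc)
        rw [hd5 c hcP hne, zero_mul]
      · intro h
        have h3 : D.h g d g = 0 := by
          by_contra hne
          exact h (Finsupp.mem_support_iff.2 hne)
        unfold gc
        rw [h3, cf_zero, zero_mul]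
    · rfl
    · intro x y _ _ hx hy
      rw [Finsupp.add_apply, hx, hy, add_zero]
    · intro x _ hx
      rw [Finsupp.neg_apply, hx, neg_zero]
  have h2 := h1 _ (sg_mem_TG hD.toDat (hD.bds k) hocc hw)
  rw [pa_sg hl, Finsupp.single_eq_same] at h2
  exact one_ne_zero h2

include hD in
theorem bounded_am : D.Bounded := by
  obtain ⟨N, hN⟩ := hD.bdO
  refine ⟨N, fun x y z => (h_dle_al hD x y z).mono ?_⟩
  have h1 : al M β la z < N := by
    by_contra hlt
    exact hN z ((Occ_iff hD).2 (by omega))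
  omega

include hD in
theorem a_eq_al (w : M.Group) : D.a w = al M β la w := by
  obtain ⟨x, _, y, _, h⟩ := al_attained hD Set.univ (pa_univ w)
  exact KLD.a_eq (fun x y => h_dle_al hD x y w) ⟨x, y, h⟩

include hD in
theorem P12_am (I : Set B) {w : M.Group} (hw : w ∈ par M I) : D.aPar I w = D.a w := by
  rw [a_eq_al hD]
  obtain ⟨x, hx, y, hy, h⟩ := al_attained hD I hw
  have h1 : IsGreatest {n : ℕ | ∃ x ∈ par M I, ∃ y ∈ par M I, (D.h x y w).coeff n ≠ 0}
      (al M β la w) := by
    refine ⟨⟨x, hx, y, hy, h⟩, ?_⟩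
    rintro n ⟨x, _, y, _, hn⟩
    by_contra hlt
    exact hn (h_dle_al hD x y w n (by omega))
  exact h1.csSup_eq

include hD in
theorem P4_am {y w : M.Group} (h : D.leLR y w) : D.a w ≤ D.a y := by
  rw [a_eq_al hD, a_eq_al hD]
  exact al_leLR hD h

end pb

end Pool.Agent.Helper63.LG
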