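import Pool.Agent.Helper35.LP.Pe
import Pool.Agent.Helper63.LG.En

/-!
# The coordinates at `T 1` modulo the ideals
-/

namespace Pool.Agent.Helper63.LG

open Pool.Agent.Helper35.KL Pool.Agent.Helper35.AM

section pf

variable {B : Type} {M : CoxeterMatrix B} {L : M.Group → ℤ} {H : Type} [Ring H] [Algebra LP H]

/-- The step of the induction of the triple products. -/
def Stp (D : KLD M L H) (β : B → Bool) (la : M.Group → ℕ) : Prop :=
  ∀ (hv : M.Group → Prop) (A : Type) [AddCommGroup A] (F : Lf D hv A) (κ T0 : ℤ) (N : ℕ)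
    (G : M.Group → M.Group → AddSubgroup A), Ctx β la F κ T0 N G → ∀ n : ℕ, TB F T0 n →
    IH β F la κ G n → ∀ X, Sp β X → ∀ p ∈ XR M X, ∀ u ∈ par M X, ∀ r ∈ XL M X,
    len M p + len M u + len M r = n → u ≠ 1 →
    Dec F (κ - la u) (Go M G p u r) (T0 - 1) (D.T p * D.C u * D.T r - D.T p * D.T u * D.T r)

variable {D : KLD M L H} {β : B → Bool} {la : M.Group → ℕ} (hD : Dt D β la)

/-- The filtration by the ideals. -/
noncomputable def FN (hD : Dt D β la) (N : ℕ) : Fil D where
  E := D.C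
  hv := Occ M β la N
  E_sub := D.C_sub_T
  bar_E := D.bar_C
  mulL := fun x w hw => (idl hD N).mulL w hw x
  mulR := fun x w hw => (idl hD N).mulR w hw x

/-- The coordinate at `T 1` modulo the ideal. -/
noncomputable def ep (hD : Dt D β la) (N : ℕ) : H →ₗ[LP] LP :=
  (Finsupp.lapply 1).comp (FN hD N).cc

theorem ep_II {N : ℕ} {x : H} (hx : x ∈ II D (Occ M β la N)) : ep hD N x = 0 := by
  change (FN hD N).cc x 1 = 0
  rw [(FN hD N).cc_I hx, Finsupp.zero_apply]

open scoped Classical in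
theorem ep_T {N : ℕ} (hN : 0 < N) {w : M.Group} (hw : ¬ Occ M β la N w) :
    ep hD N (D.T w) = if w = 1 then 1 else 0 := by
  change (FN hD N).cc (D.T w) 1 = _
  rw [(FN hD N).cc_T hw, Finsupp.single_apply]

theorem al_at_one (hD : Dt D β la) : al M β la 1 = 0 := by
  rw [al_mem hD (Sp_empty β) (par M ∅).one_mem, hD.one]

theorem ep_not_one (hD : Dt D β la) {N : ℕ} (hN : 0 < N) : ¬ Occ M β la N (1 : M.Group) := by
  rw [Occ_iff hD, al_at_one hD]
  omega

theorem ep_expand (b : Module.Basis M.Group LP H) (p r : H) (φ : H →ₗ[LP] LP) (x : H) :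
    φ (p * x * r) = ∑ y ∈ (b.repr x).support, b.repr x y * φ (p * b y * r) := by
  conv_lhs => rw [← b.linearCombination_repr x]
  rw [Finsupp.linearCombination_apply, Finsupp.sum, Finset.mul_sum, Finset.sum_mul, map_sum]
  refine Finset.sum_congr rfl fun y _ => ?_
  rw [mul_smul_comm, smul_mul_assoc, map_smul, smul_eq_mul]

theorem ep_expand_one (b : Module.Basis M.Group LP H) (φ : H →ₗ[LP] LP) (x : H) :
    φ x = ∑ y ∈ (b.repr x).support, b.repr x y * φ (b y) := by
  have h1 := ep_expand b 1 1 φ x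
  simpa only [one_mul, mul_one] using h1

theorem ep_C_Vl (D : KLD M L H) (z : M.Group) : D.C z ∈ Vl D.T (len M) (len M z + 1) := by
  have h1 : D.C z = (D.C z - D.T z) + D.T z := by abel
  rw [h1]
  exact Submodule.add_mem _ (Vl_mono _ _ (Nat.le_succ _) (D.C_sub_T z))
    (mem_Vl _ _ (Nat.lt_succ_self _))

theorem ep_p_zero (D : KLD M L H) (y z : M.Group) : Dle 0 (D.T.repr (D.C z) y) :=
  pb_C0 z y

theorem ep_p_neg (D : KLD M L H) {y z : M.Group} (h : y ≠ z) : Dle (-1) (D.T.repr (D.C z) y) := by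
  have h6 := D.C_T z y
  rwa [map_sub, Finsupp.sub_apply, Module.Basis.repr_self,
    Finsupp.single_eq_of_ne h, sub_zero] at h6

/-- The estimate for the elements of length less than `n`. -/
def Qb (hD : Dt D β la) (n : ℕ) : Prop :=
  ∀ N : ℕ, 0 < N → ∀ w, Occ M β la N w → len M w < n → Dle (-N) (ep hD N (D.T w))

theorem ep_near {n N : ℕ} (hQ : Qb hD n) (hN : 0 < N) {x : H} (hx : x ∈ Vl D.T (len M) n)
    {m : ℤ} (h : ∀ y, Occ M β la N y → Dle m (D.T.repr x y)) :
    Dle (m - N) (ep hD N x - D.T.repr x 1) := by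
  classical
  rw [ep_expand_one D.T (ep hD N) x]
  have h4 : ∀ y ∈ (D.T.repr x).support, y ≠ 1 →
      Dle (m - N) (D.T.repr x y * ep hD N (D.T y)) := by
    intro y hy hy1
    by_cases hyN : Occ M β la N y
    · exact (h y hyN).mul_of_eq (hQ N hN y hyN
        ((mem_Vl_iff D.T (len M) _ _).1 hx y (Finsupp.mem_support_iff.1 hy))) (by omega)
    · rw [ep_T hD hN hyN, if_neg hy1, mul_zero]
      exact Dle.zero _
  by_cases h1s : (1 : M.Group) ∈ (D.T.repr x).support
  · rw [← Finset.sum_erase_add _ _ h1s, ep_T hD hN (ep_not_one hD hN), if_pos rfl, mul_one,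
      add_sub_cancel_right]
    refine Dle.sum _ fun y hy => ?_
    rw [Finset.mem_erase] at hy
    exact h4 y hy.2 hy.1
  · rw [Finsupp.notMem_support_iff.1 h1s, sub_zero]
    refine Dle.sum _ fun y hy => h4 y hy ?_
    rintro rfl
    exact h1s hy

theorem ep_P1 {n : ℕ} (hQ : Qb hD n) {z : M.Group} (hz : len M z < n) :
    Dle (-(al M β la z : ℤ)) (D.p 1 z) := by
  rcases Nat.eq_zero_or_pos (al M β la z) with h0 | h0
  · rw [h0]
    exact ep_p_zero D 1 z
  · have h1 := ep_near hD hQ h0 (Vl_mono _ _ hz (ep_C_Vl D z)) (m := 0)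
      (fun y _ => ep_p_zero D y z)
    rw [ep_II hD (C_mem_II ((Occ_iff hD).2 le_rfl)), zero_sub, zero_sub] at h1
    have h2 := h1.neg
    rwa [neg_neg] at h2

theorem ep_E3 {n N : ℕ} (hQ : Qb hD n) (hN : 0 < N) {z : M.Group} (hz : len M z < n)
    (hl : ¬ Occ M β la N z) : Dle (-(al M β la z : ℤ)) (ep hD N (D.C z)) ∧
      (ep hD N (D.C z)).coeff (-(al M β la z : ℤ)) = (D.p 1 z).coeff (-(al M β la z : ℤ)) := by
  have h1 := ep_near hD hQ hN (Vl_mono _ _ hz (ep_C_Vl D z)) (m := -1)
    (fun y hy => ep_p_neg D (fun h => hl (h ▸ hy)))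
  have h2 := ep_P1 hD hQ hz
  have h3 : al M β la z < N := by
    by_contra h
    exact hl ((Occ_iff hD).2 (by omega))
  have h4 : ep hD N (D.C z) = (ep hD N (D.C z) - D.T.repr (D.C z) 1) + D.p 1 z := by
    rw [KLD.p, sub_add_cancel]
  refine ⟨?_, ?_⟩
  · rw [h4]
    exact (h1.mono (by omega)).add h2
  · rw [h4, cf_add, h1 _ (by omega), zero_add]

theorem ep_E2 {n N : ℕ} (hQ : Qb hD n) (hN : 0 < N) {X : Set B} (hX : Sp β X) {p r u : M.Group}
    (hp : p ∈ XR M X) (hr : r ∈ XL M X) (hu : u ∈ par M X)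
    (hl : len M p + len M u + len M r < n) :
    Dle (-la u) (ep hD N (D.T p * D.C u * D.T r)) := by
  rw [ep_expand_one D.C (ep hD N)]
  refine Dle.sum _ fun z hz => ?_
  by_cases hzN : Occ M β la N z
  · rw [ep_II hD (C_mem_II hzN), mul_zero]
    exact Dle.zero _
  · have h1 := TCT_dle_al hD hX hp hr hu z
    have h2 : D.T p * D.C u * D.T r ∈ Vl D.T (len M) (len M p + len M u + len M r + 1) := by
      have h3 := D.mul_Vl (mem_Vl D.T (len M) (w := p) (Nat.lt_succ_self _)) (ep_C_Vl D u)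
      have h4 := D.mul_Vl h3 (mem_Vl D.T (len M) (w := r) (Nat.lt_succ_self _))
      exact Vl_mono _ _ (by omega) h4
    rw [← Vl_eq D.T (len M) D.C D.C_sub_T, mem_Vl_iff] at h2
    have h3 := h2 z (Finsupp.mem_support_iff.1 hz)
    exact h1.mul_of_eq (ep_E3 hD hQ hN (by omega) hzN).1 (by omega)

/-- The filtration by the degree of the coordinate at `T 1`. -/
noncomputable def LfE (hD : Dt D β la) (N : ℕ) : Lf D (Occ M β la N) ℤ where
  Lam n :=
    { carrier := {x | Dle n (ep hD N x)}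
      add_mem' := by
        intro x y hx hy
        change Dle n (ep hD N (x + y))
        rw [map_add]
        exact Dle.add hx hy
      zero_mem' := by
        change Dle n (ep hD N 0)
        rw [map_zero]
        exact Dle.zero n
      neg_mem' := by
        intro x hx
        change Dle n (ep hD N (-x))
        rw [map_neg]
        exact Dle.neg hx }
  ld n :=
    { toFun := fun x => (ep hD N x).coeff n
      map_zero' := by rw [map_zero, cf_zero]
      map_add' := by
        intro x y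
        rw [map_add, cf_add] }
  mono := by
    intro m n h x hx
    exact Dle.mono hx h
  lt := by
    intro m n x h hx
    exact hx n h
  smul := by
    intro m n a x ha hx
    change Dle (m + n) (ep hD N (a • x))
    rw [map_smul, smul_eq_mul]
    exact ha.mul hx
  ldsmul := by
    intro m n a x ha hx
    change (ep hD N (a • x)).coeff (m + n) = a.coeff m • (ep hD N x).coeff n
    rw [map_smul, smul_eq_mul, smul_eq_mul]
    exact cf_mul_lead ha hx
  mem := by
    intro x hx n
    change Dle n (ep hD N x)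
    rw [ep_II hD hx]
    exact Dle.zero n

theorem pf_Lam {N : ℕ} {n : ℤ} {x : H} : x ∈ (LfE hD N).Lam n ↔ Dle n (ep hD N x) := Iff.rfl

variable (hS : Stp D β la)

/-- The context for the filtration. -/
theorem pf_ctx {N : ℕ} (hN : 0 < N) : Ctx β la (LfE hD N) 0 (-N) N (fun _ _ => ⊤) where
  dat := hD.toDat
  idl := idl hD N
  inv := fun _ hw => hD.occ_inv hw
  hin := fun X hX c hc h => Occ.of_mem hX hc h
  hT0 := fun m hm => by omega
  g1 := fun _ _ _ _ _ _ => le_rfl
  g2 := fun _ _ _ _ _ _ _ _ _ _ _ _ _ _ _ _ _ _ _ _ => le_rfl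
  g3 := fun _ _ _ _ _ _ _ _ _ _ _ _ => AddSubgroup.mem_top _
  h11 := by
    refine ⟨?_, AddSubgroup.mem_top _⟩
    rw [pf_Lam]
    have h1 := ep_T hD hN (ep_not_one hD hN)
    rw [D.T_one, if_pos rfl] at h1
    rw [h1]
    exact Dle.one le_rfl

include hS in
theorem ep_Q (n : ℕ) : Qb hD n := by
  classical
  induction n with
  | zero => intro N _ w _ h; omega
  | succ n ih =>
    intro N hN w hw hl
    by_cases hln : len M w < n
    · exact ih N hN w hw hln
    have hw1 : w ≠ 1 := fun h => ep_not_one hD hN (h ▸ hw)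
    have hlw : len M w = n := by omega
    have hTB : TB (LfE hD N) (-N) n := by
      intro v hv hvn
      rw [pf_Lam]
      by_cases hvN : Occ M β la N v
      · exact ih N hN v hvN hvn
      · rw [ep_T hD hN hvN, if_neg hv]
        exact Dle.zero _
    have hIH : IH β (LfE hD N) la 0 (fun _ _ => ⊤) n := by
      intro X hX p hp u hu r hr hlen
      refine ⟨?_, AddSubgroup.mem_top _⟩
      rw [pf_Lam, zero_sub]
      exact ep_E2 hD ih hN hX hp hr hu hlen
    obtain ⟨Y, hY, p, hp, g, hg, r, hr, hw', hlen, hk⟩ := hD.nf hw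
    have hYs : Sp β Y := by
      rcases hY with ⟨i, rfl⟩ | ⟨a, b, -, rfl⟩
      · exact Sp_blk i
      · exact Sp_pair β a b
    have hg1 : g ≠ 1 := by
      rintro rfl
      rw [hD.one] at hk
      omega
    subst hw'
    have h1 := hS _ _ (LfE hD N) 0 (-N) N _ (pf_ctx hD hN) n hTB hIH Y hYs p hp g hg r hr
      (by omega) hg1
    obtain ⟨y, z, hyz, hy, -, hz⟩ := h1
    rw [pf_Lam] at hy hz
    have h2 : ep hD N (D.T p * D.C g * D.T r) = 0 :=
      ep_II hD ((idl hD N).II_mulR _ ((idl hD N).II_mulL _ (C_mem_II (Occ.of_mem hYs hg hk))))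
    have h3 := congrArg (ep hD N) hyz
    rw [map_sub, h2, (pa_T (D := D) hlen).1, zero_sub, map_add] at h3
    have h4 : ep hD N (D.T (p * g * r)) = -(ep hD N y + ep hD N z) := by rw [← h3, neg_neg]
    rw [h4]
    exact ((hy.mono (by omega)).add (hz.mono (by omega))).neg

include hS in
/-- The coordinates of the elements of the standard basis in the ideal. -/
theorem ep_T_dle {N : ℕ} (hN : 0 < N) {w : M.Group} (hw : Occ M β la N w) :
    Dle (-N) (ep hD N (D.T w)) := ep_Q hD hS _ N hN w hw (Nat.lt_succ_self _)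

include hD hS in
theorem P1_al (z : M.Group) : Dle (-(al M β la z : ℤ)) (D.p 1 z) :=
  ep_P1 hD (ep_Q hD hS _) (Nat.lt_succ_self _)

include hD hS in
theorem P1_am (z : M.Group) : Dle (-D.a z) (D.p 1 z) := by
  rw [a_eq_al hD]
  exact P1_al hD hS z

include hD in
theorem nn_al (z : M.Group) : D.nn z = nu D (al M β la) z := by
  rw [KLD.nn, nu, a_eq_al hD]

end pf

end Pool.Agent.Helper63.LG
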